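import Pool.Agent.KS6_21.QGEO.Fin

set_option autoImplicit false

namespace Pool.Agent.Results.MP_c5a4a7_gt.EquifacialTetrahedra

open Set Pool.Agent.KS6_21.QGEO

/-- The tetrahedron on four alternate corners of the box with the half edges `A`, `B`, `C`. -/
noncomputable def box (A B C : ℝ) : Fin 4 → E3 :=
  ![!₂[A, B, C], !₂[A, -B, -C], !₂[-A, B, -C], !₂[-A, -B, C]]

/-- (1) Let `V` be the vertices of a nondegenerate tetrahedron whose opposite edges have equal
length (an equifacial tetrahedron, `Equif V`). Then for every vertex `V i` there are infinitely many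
simple closed quasigeodesics (distinct as subsets of the surface) which pass through `V i`.
(2) There are such tetrahedra inscribed in every box; so they form a family with three parameters.
(3) In particular there is no bound for the number of the simple closed quasigeodesics through a
vertex in terms of the number of vertices. -/
theorem result :
    (∀ V : Fin 4 → E3, AffineIndependent ℝ V → Equif V → ∀ i : Fin 4,
      {S : Set E3 | ∃ γ : ℝ → E3, SimpleQG V γ ∧ S = range γ ∧ V i ∈ S}.Infinite) ∧
    (∀ A B C : ℝ, 0 < A → 0 < B → 0 < C → AffineIndependent ℝ (box A B C) ∧ Equif (box A B C)) ∧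
    ¬ ∃ N : ℕ, ∀ V : Fin 4 → E3, AffineIndependent ℝ V →
      {S : Set E3 | ∃ γ : ℝ → E3, SimpleQG V γ ∧ S = range γ ∧ ∃ i, V i ∈ S}.encard ≤ N := by
  have hbox : ∀ A B C : ℝ, 0 < A → 0 < B → 0 < C →
      AffineIndependent ℝ (box A B C) ∧ Equif (box A B C) := by
    intro A B C hA hB hC
    constructor
    · rw [affineIndependent_iff_linearIndependent_vsub ℝ _ (0 : Fin 4),
        ← linearIndependent_equiv (finSuccAboveEquiv (0 : Fin 4)), Fintype.linearIndependent_iff]
      intro g hg
      have h0 := congrArg (fun v : E3 => v 0) hg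
      have h1 := congrArg (fun v : E3 => v 1) hg
      have h2 := congrArg (fun v : E3 => v 2) hg
      simp [Fin.sum_univ_three, finSuccAboveEquiv, box] at h0 h1 h2
      have k0 : (g 1 + g 2) * A = 0 := by nlinarith
      have k1 : (g 0 + g 2) * B = 0 := by nlinarith
      have k2 : (g 0 + g 1) * C = 0 := by nlinarith
      have m0 := (mul_eq_zero.1 k0).resolve_right hA.ne'
      have m1 := (mul_eq_zero.1 k1).resolve_right hB.ne'
      have m2 := (mul_eq_zero.1 k2).resolve_right hC.ne'
      intro i; fin_cases i <;> simp <;> linarith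
    · refine ⟨?_, ?_, ?_⟩ <;>
      · rw [EuclideanSpace.dist_eq, EuclideanSpace.dist_eq]
        congr 1
        simp [Fin.sum_univ_three, box, Real.dist_eq, sq_abs]
        try ring
  refine ⟨fun V hA hE i => infinite_all hE hA i, hbox, ?_⟩
  rintro ⟨N, hN⟩
  obtain ⟨hA, hE⟩ := hbox 1 1 1 one_pos one_pos one_pos
  have h1 := hN _ hA
  have h2 : {S : Set E3 | ∃ γ : ℝ → E3,
      SimpleQG (box 1 1 1) γ ∧ S = range γ ∧ ∃ i, box 1 1 1 i ∈ S}.Infinite := by
    refine (infinite_all hE hA 0).mono ?_
    rintro S ⟨γ, a, b, c⟩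
    exact ⟨γ, a, b, 0, c⟩
  rw [h2.encard_eq] at h1
  exact absurd h1 (by simp)

end Pool.Agent.Results.MP_c5a4a7_gt.EquifacialTetrahedra
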